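import Pool.Agent.Helper647_GL.Mean

/-!
# Numbers of critical zeros in Gram intervals: an unconditional inequality

Let `G_{0,M}(k)` be the proportion of the Gram intervals `[g_j, g_{j+1})`, `0 ≤ j < M`, that contain
exactly `k` critical zeros of zeta, counted with multiplicity.  Unconditionally, for all large `M`,
the mean over `j < M` of `v (n_j)` is at least `0.6724`, where `n_j` is the number of critical zeros
in `[g_j, g_{j+1})` and `v = 0, 1, 2, 1.2575, 1.5, 2, 2, ...`, while the mean of `n_j` is at most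
`1 + ε`.  Consequently at least `21.8 %` of the Gram intervals contain exactly one or exactly two
critical zeros, and at most `18.8 %` contain three or more.
-/

open Filter Topology Complex

namespace Pool.Agent.Results.MP_7eec5e_nt.GramProfile

/-- the phase `exp (i ϑ(t))`, with `ϑ(t) = arg Γ(1/4 + i t / 2) - (t / 2) log π` -/
noncomputable def phase (t : ℝ) : ℂ :=
  Gamma (1 / 4 + I * t / 2) / ‖Gamma (1 / 4 + I * t / 2)‖ * cexp (-(I * (t / 2) * Real.log Real.pi))

/-- the Riemann-Siegel function `ϑ(t)`, the integral of its derivative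
`(1/2) Re (Γ'/Γ)(1/4 + i t / 2) - (1/2) log π` from `0` to `t`; the theorem contains the proof that
it is the continuous function with `ϑ(0) = 0` and `exp (i ϑ(t)) = phase t` -/
noncomputable def theta (t : ℝ) : ℝ := ∫ u in (0 : ℝ)..t,
  ((deriv Gamma (1 / 4 + I * u / 2) / Gamma (1 / 4 + I * u / 2)).re / 2 - Real.log Real.pi / 2)

/-- the Gram point `g_n`, the `t > 7` with `ϑ(t) = n π`; the theorem contains the proof that for all
large `n` there is exactly one such `t` -/
noncomputable def g (n : ℕ) : ℝ := sInf {t : ℝ | 7 < t ∧ theta t = n * Real.pi}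

/-- the number of the zeros `1/2 + i t` of zeta with `g_j ≤ t < g_{j+1}`, with multiplicity -/
noncomputable def count (j : ℕ) : ℕ :=
  ∑ᶠ t ∈ {t : ℝ | g j ≤ t ∧ t < g (j + 1) ∧ riemannZeta (1 / 2 + I * t) = 0},
    analyticOrderNatAt riemannZeta (1 / 2 + I * t)

/-- `G_{0,M}(k)`: the proportion of the `j < M` for which `[g_j, g_{j+1})` contains exactly `k`
critical zeros -/
noncomputable def G (M k : ℕ) : ℝ := (((Finset.range M).filter (fun j => count j = k)).card : ℝ) / M

/-- the weights `0, 1, 2, 1.2575, 1.5, 2, 2, 2, ...` -/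
noncomputable def v (k : ℕ) : ℝ :=
  if k = 0 then 0 else if k = 1 then 1 else if k = 3 then 1.2575 else if k = 4 then 1.5 else 2

lemma theta_eq : theta = R304.GR.vt := rfl

lemma g_eq : g = Helper647.GL.gp := rfl

lemma count_eq : count = Helper647.GL.cz riemannZeta := rfl

lemma v_eq : v = Helper647.GL.vv := rfl

/-- the sets of zeros that are counted are finite -/
theorem finite_zeros (a b : ℝ) :
    {t : ℝ | a ≤ t ∧ t < b ∧ riemannZeta (1 / 2 + I * t) = 0}.Finite := by
  have h1 := H370.finite_zeros_compact (F := riemannZeta)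
    (fun s hs => by
      have : DifferentiableOn ℂ riemannZeta ({1}ᶜ : Set ℂ) := fun z hz =>
        (differentiableAt_riemannZeta hz).differentiableWithinAt
      exact this.analyticAt (isOpen_compl_singleton.mem_nhds hs))
    (riemannZeta_ne_zero_of_one_le_re (by simp)) (by
      have h := riemannZeta_residue_one
      have h3 := h.eventually_ne (one_ne_zero : (1 : ℂ) ≠ 0)
      filter_upwards [h3] with s hs h0
      rw [h0, mul_zero] at hs
      exact hs rfl)
    (isCompact_Icc (a := a) (b := b) |>.image (f := fun t : ℝ => (1 / 2 + I * t : ℂ))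
      (by fun_prop))
  refine Set.Finite.of_finite_image (f := fun t : ℝ => (1 / 2 + I * t : ℂ)) (h1.subset ?_) ?_
  · rintro s ⟨t, ⟨h2, h3, h4⟩, rfl⟩
    exact ⟨⟨t, ⟨h2, h3.le⟩, rfl⟩, h4⟩
  · intro x _ y _ h
    have := congrArg Complex.im h
    simpa using this

/-- the Gram points -/
theorem gram_points : ∃ n₀ : ℕ, ∀ n : ℕ, n₀ ≤ n → 7 < g n ∧ theta (g n) = n * Real.pi ∧
    g n < g (n + 1) ∧ ∀ t : ℝ, 7 < t → theta t = n * Real.pi → t = g n := by
  obtain ⟨T1, -, hT1, hmono, n0, h⟩ := Helper647.GL.gp_data 1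
  rw [theta_eq, g_eq]
  refine ⟨n0, fun n hn => ?_⟩
  obtain ⟨h1, h2, h3, h4, h5⟩ := h n hn
  obtain ⟨k1, k2, k3, k4, k5⟩ := h (n + 1) (by omega)
  refine ⟨h2, h3, ?_, h4⟩
  by_contra hc
  have := hmono _ _ k1 (not_lt.mp hc)
  rw [h3, k3] at this
  push_cast at this
  have hpi := Real.pi_pos
  nlinarith [not_lt.mp hc]

lemma G_mul (M k : ℕ) (hM : 0 < M) :
    G M k * M = ∑ j ∈ Finset.range M, (if count j = k then (1 : ℝ) else 0) := by
  unfold G
  have : (M : ℝ) ≠ 0 := by positivity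
  rw [div_mul_cancel₀ _ this, Finset.sum_boole]

lemma low_ineq (n : ℕ) : 0.8608 * v n - 0.36084 * (n : ℝ) ≤
    (if n = 1 then (1 : ℝ) else 0) + (if n = 2 then (1 : ℝ) else 0) := by
  rcases n with _ | _ | _ | _ | _ | n
  · unfold v; norm_num
  · unfold v; norm_num
  · unfold v; norm_num
  · unfold v; norm_num
  · unfold v; norm_num
  · have h1 : (n + 5 : ℕ) ≠ 1 := by omega
    have h2 : (n + 5 : ℕ) ≠ 2 := by omega
    have h0 : (n + 5 : ℕ) ≠ 0 := by omega
    have h3 : (n + 5 : ℕ) ≠ 3 := by omega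
    have h4 : (n + 5 : ℕ) ≠ 4 := by omega
    have e : (n + 1 + 1 + 1 + 1 + 1 : ℕ) = n + 5 := rfl
    rw [e]
    unfold v
    rw [if_neg h0, if_neg h1, if_neg h3, if_neg h4, if_neg h1, if_neg h2]
    have : (0 : ℝ) ≤ n := Nat.cast_nonneg n
    push_cast
    linarith

lemma high_ineq (n : ℕ) : 1 - (if n = 0 then (1 : ℝ) else 0) - (if n = 1 then (1 : ℝ) else 0)
    - (if n = 2 then (1 : ℝ) else 0) ≤ ((n : ℝ) - v n) / 1.7425 := by
  rcases n with _ | _ | _ | _ | _ | n
  · unfold v; norm_num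
  · unfold v; norm_num
  · unfold v; norm_num
  · unfold v; norm_num
  · unfold v; norm_num
  · have h1 : (n + 5 : ℕ) ≠ 1 := by omega
    have h2 : (n + 5 : ℕ) ≠ 2 := by omega
    have h0 : (n + 5 : ℕ) ≠ 0 := by omega
    have h3 : (n + 5 : ℕ) ≠ 3 := by omega
    have h4 : (n + 5 : ℕ) ≠ 4 := by omega
    have e : (n + 1 + 1 + 1 + 1 + 1 : ℕ) = n + 5 := rfl
    rw [e]
    unfold v
    rw [if_neg h0, if_neg h1, if_neg h3, if_neg h4, if_neg h0, if_neg h1, if_neg h2]
    have : (0 : ℝ) ≤ n := Nat.cast_nonneg n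
    rw [le_div_iff₀ (by norm_num)]
    push_cast
    linarith

/-- **The theorem.** -/
theorem result :
    -- the functions and points are those of the problem
    (theta 0 = 0 ∧ Continuous theta ∧ (∀ t : ℝ, cexp (I * (theta t : ℂ)) = phase t) ∧
      (∀ a b : ℝ, {t : ℝ | a ≤ t ∧ t < b ∧ riemannZeta (1 / 2 + I * t) = 0}.Finite) ∧
      ∃ n₀ : ℕ, ∀ n : ℕ, n₀ ≤ n → 7 < g n ∧ theta (g n) = n * Real.pi ∧
        g n < g (n + 1) ∧ ∀ t : ℝ, 7 < t → theta t = n * Real.pi → t = g n) ∧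
    -- the inequality for the profile
    (∃ M₀ : ℕ, ∀ M : ℕ, M₀ ≤ M → 0.6724 * M ≤ ∑ j ∈ Finset.range M, v (count j)) ∧
    (∀ ε : ℝ, 0 < ε → ∃ M₀ : ℕ, ∀ M : ℕ, M₀ ≤ M →
      ∑ j ∈ Finset.range M, (count j : ℝ) ≤ (1 + ε) * M) ∧
    -- the consequences
    ∃ M₀ : ℕ, ∀ M : ℕ, M₀ ≤ M →
      0.218 ≤ G M 1 + G M 2 ∧ 1 - G M 0 - G M 1 - G M 2 ≤ 0.188 := by
  obtain ⟨M1, hV⟩ := Helper647.GL.VV_main H370.good_zeta (c := 0.67249) (by norm_num)
    (by norm_num)
  have hV' : ∀ M : ℕ, M1 ≤ M → 0.67249 * M ≤ ∑ j ∈ Finset.range M, v (count j) := hV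
  have hmean : ∀ ε : ℝ, 0 < ε → ∃ M₀ : ℕ, ∀ M : ℕ, M₀ ≤ M →
      ∑ j ∈ Finset.range M, (count j : ℝ) ≤ (1 + ε) * M :=
    fun ε hε => Helper647.GL.cz_mean H370.good_zeta hε
  refine ⟨⟨R304.GR.vt_zero, R304.GR.vt_cont, R304.GR.exp_vt, finite_zeros, gram_points⟩,
    ⟨M1, fun M hM => ?_⟩, hmean, ?_⟩
  · have h1 := hV' M hM
    have h2 : (0 : ℝ) ≤ M := Nat.cast_nonneg M
    norm_num at h1 ⊢
    linarith
  · obtain ⟨M2, hM2⟩ := hmean (1 / 10 ^ 5) (by norm_num)
    refine ⟨max (max M1 M2) 1, fun M hM => ?_⟩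
    have h1 := hV' M (((le_max_left _ _).trans (le_max_left _ _)).trans hM)
    have h2 := hM2 M (((le_max_right _ _).trans (le_max_left _ _)).trans hM)
    have hM0 : 0 < M := (le_max_right _ _).trans hM
    have hM' : (0 : ℝ) < M := by exact_mod_cast hM0
    have h3 : ∑ j ∈ Finset.range M, (0.8608 * v (count j) - 0.36084 * (count j : ℝ)) ≤
        ∑ j ∈ Finset.range M, ((if count j = 1 then (1 : ℝ) else 0) +
          (if count j = 2 then (1 : ℝ) else 0)) :=
      Finset.sum_le_sum fun j _ => low_ineq (count j)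
    have h4 : ∑ j ∈ Finset.range M, (1 - (if count j = 0 then (1 : ℝ) else 0) -
          (if count j = 1 then (1 : ℝ) else 0) - (if count j = 2 then (1 : ℝ) else 0)) ≤
        ∑ j ∈ Finset.range M, ((count j : ℝ) - v (count j)) / 1.7425 :=
      Finset.sum_le_sum fun j _ => high_ineq (count j)
    rw [Finset.sum_sub_distrib, ← Finset.mul_sum, ← Finset.mul_sum, Finset.sum_add_distrib,
      ← G_mul M 1 hM0, ← G_mul M 2 hM0] at h3
    rw [Finset.sum_sub_distrib, Finset.sum_sub_distrib, Finset.sum_sub_distrib,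
      ← G_mul M 0 hM0, ← G_mul M 1 hM0, ← G_mul M 2 hM0, ← Finset.sum_div,
      Finset.sum_sub_distrib, Finset.sum_const, Finset.card_range, nsmul_eq_mul, mul_one,
      le_div_iff₀ (by norm_num)] at h4
    constructor
    · have h5 : 0.218 * M ≤ (G M 1 + G M 2) * M := by
        norm_num at h1 h2 h3 ⊢
        linarith
      exact le_of_mul_le_mul_right h5 hM'
    · have h5 : (1 - G M 0 - G M 1 - G M 2) * M ≤ 0.188 * M := by
        norm_num at h1 h2 h4 ⊢
        linarith
      exact le_of_mul_le_mul_right h5 hM'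

end Pool.Agent.Results.MP_7eec5e_nt.GramProfile
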