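import Pool.Agent.Helper647_PT.Fin

/-!
# A positive proportion of the Gram intervals contain an odd number of critical zeros

Unconditionally there is a constant `c > 0` such that, for all large `M`, at least `c M` of the Gram
intervals `[g_j, g_{j+1})`, `0 ≤ j < M`, contain an odd number of zeros `1/2 + i t` of zeta, counted
with multiplicity.  So `G_{0,M}(1) + G_{0,M}(3) + G_{0,M}(5) + ...` is at least `c` for all large `M`.
-/

open Filter Topology Complex

namespace Pool.Agent.Results.MP_7eec5e_nt.OddCount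

/-- the phase `exp (i ϑ(t))`, with `ϑ(t) = arg Γ(1/4 + i t / 2) - (t / 2) log π` -/
noncomputable def phase (t : ℝ) : ℂ :=
  Gamma (1 / 4 + I * t / 2) / ‖Gamma (1 / 4 + I * t / 2)‖ * cexp (-(I * (t / 2) * Real.log Real.pi))

/-- the Riemann-Siegel function `ϑ(t)`, the integral of its derivative
`(1/2) Re (Γ'/Γ)(1/4 + i t / 2) - (1/2) log π` from `0` to `t`; the theorem contains the proof that
it is the continuous function with `ϑ(0) = 0` and `exp (i ϑ(t)) = phase t` -/
noncomputable def theta (t : ℝ) : ℝ := ∫ u in (0 : ℝ)..t,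
  ((deriv Gamma (1 / 4 + I * u / 2) / Gamma (1 / 4 + I * u / 2)).re / 2 - Real.log Real.pi / 2)

/-- the Gram point `g_n`, the `t > 7` with `ϑ(t) = n π`; the theorem contains the proof that for all
large `n` there is exactly one such `t` -/
noncomputable def g (n : ℕ) : ℝ := sInf {t : ℝ | 7 < t ∧ theta t = n * Real.pi}

/-- the number of the zeros `1/2 + i t` of zeta with `g_j ≤ t < g_{j+1}`, with multiplicity -/
noncomputable def count (j : ℕ) : ℕ :=
  ∑ᶠ t ∈ {t : ℝ | g j ≤ t ∧ t < g (j + 1) ∧ riemannZeta (1 / 2 + I * t) = 0},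
    analyticOrderNatAt riemannZeta (1 / 2 + I * t)

lemma theta_eq : theta = R304.GR.vt := rfl

lemma g_eq : g = Helper647.GL.gp := rfl

lemma count_eq : count = Helper647.GL.cz riemannZeta := rfl

/-- the Gram points -/
theorem gram_points : ∃ n₀ : ℕ, ∀ n : ℕ, n₀ ≤ n → 7 < g n ∧ theta (g n) = n * Real.pi ∧
    g n < g (n + 1) ∧ ∀ t : ℝ, 7 < t → theta t = n * Real.pi → t = g n := by
  obtain ⟨T1, -, hT1, hmono, n0, h⟩ := Helper647.GL.gp_data 1
  rw [theta_eq, g_eq]
  refine ⟨n0, fun n hn => ?_⟩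
  obtain ⟨h1, h2, h3, h4, h5⟩ := h n hn
  obtain ⟨k1, k2, k3, k4, k5⟩ := h (n + 1) (by omega)
  refine ⟨h2, h3, ?_, h4⟩
  by_contra hc
  have := hmono _ _ k1 (not_lt.mp hc)
  rw [h3, k3] at this
  push_cast at this
  have hpi := Real.pi_pos
  nlinarith [not_lt.mp hc]

/-- **The theorem.** -/
theorem result :
    -- the functions and points are those of the problem
    (theta 0 = 0 ∧ Continuous theta ∧ (∀ t : ℝ, cexp (I * (theta t : ℂ)) = phase t) ∧
      (∀ a b : ℝ, {t : ℝ | a ≤ t ∧ t < b ∧ riemannZeta (1 / 2 + I * t) = 0}.Finite) ∧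
      ∃ n₀ : ℕ, ∀ n : ℕ, n₀ ≤ n → 7 < g n ∧ theta (g n) = n * Real.pi ∧
        g n < g (n + 1) ∧ ∀ t : ℝ, 7 < t → theta t = n * Real.pi → t = g n) ∧
    -- a positive proportion of the Gram intervals contain an odd number of critical zeros
    ∃ c : ℝ, 0 < c ∧ ∃ M₀ : ℕ, ∀ M : ℕ, M₀ ≤ M →
      c * M ≤ (((Finset.range M).filter (fun j => Odd (count j))).card : ℝ) :=
  ⟨⟨R304.GR.vt_zero, R304.GR.vt_cont, R304.GR.exp_vt, Helper647.PT.fz, gram_points⟩,
    Helper647.PT.odd_main⟩

end Pool.Agent.Results.MP_7eec5e_nt.OddCount
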